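import Pool.Agent.H93.TN.TargetsA
import Pool.Agent.H48.TN.Tools
import Pool.Agent.H3.TN.CNC

/-!
# tn_modules, module TBL: `(C0 - Aw C0) PL U` is negligible near the direction `w`
-/

set_option autoImplicit false

namespace Pool.Agent.H99.TN

open MeasureTheory Set FourierTransform
open Pool.Agent.H93.TN Pool.Agent.H83.LS Pool.Agent.H93.AR Pool.Agent.H54.LS Pool.Agent.H14.LS
open Pool.Agent.H83.AR Pool.Agent.H84.BR Pool.Agent.H84.B2
open scoped ENNReal NNReal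

/-! ### the kernel -/

theorem tbl_MK_sub {n : ℕ} {s t : EE n → ℂ} (hs : Integrable s) (ht : Integrable t) (x : EE n) :
    MK (fun ξ => s ξ - t ξ) x = MK s x - MK t x := by
  have hc : AEStronglyMeasurable (fun ξ : EE n => e (inner ℝ x ξ)) volume :=
    (continuous_e.comp (continuous_const.inner continuous_id)).aestronglyMeasurable
  have h1 : ∀ {f : EE n → ℂ}, Integrable f → Integrable (fun ξ => e (inner ℝ x ξ) * f ξ) := by
    intro f hf
    refine hf.norm.mono' (hc.mul hf.aestronglyMeasurable) (ae_of_all _ fun ξ => ?_)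
    rw [norm_mul, norm_e, one_mul]
  unfold MK
  rw [← integral_sub (h1 hs) (h1 ht)]
  refine integral_congr_ae (ae_of_all _ fun ξ => ?_)
  simp only
  ring

theorem tbl_sE {n : ℕ} (Lam φ : ℝ) (w : EE n) : sE n Lam φ w =
    fun ξ => ((chis (‖ξ‖ / Lam) : ℝ) : ℂ) -
      (sy n chis Lam (2 * φ) w ξ - (-1 : ℂ) * sy n chis Lam (2 * φ) (-w) ξ) := by
  funext ξ
  unfold sE aw sy
  simp only [sub_neg_eq_add]
  push_cast
  ring

theorem tbl_ker (hSEL : T_SEL) (hRAD : T_RAD) (n K : ℕ) (hn : 1 ≤ n) : ∃ C : ℝ, 0 ≤ C ∧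
    ∀ (Lam φ : ℝ) (w : EE n), 0 < Lam → 0 < φ → φ ≤ 1 / 16 → ‖w‖ = 1 →
    Integrable (MK (sE n Lam φ w)) ∧ Continuous (MK (sE n Lam φ w)) ∧
    ∀ z, ‖MK (sE n Lam φ w) z‖ ≤ C * Lam ^ n * ((1 + Lam * φ * ‖z‖) ^ K)⁻¹ := by
  obtain ⟨C₁, hC₁, h1⟩ := hSEL n K chis hn Pool.Agent.H48.TN.rc_chis
  obtain ⟨C₂, hC₂, h2⟩ := hRAD n K chis hn Pool.Agent.H48.TN.rc_chis
  refine ⟨C₂ + C₁ + C₁, by positivity, fun Lam φ w hL hφ hφ' hw => ?_⟩
  have ha := h1 Lam (2 * φ) w hL (by positivity) (by linarith) hw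
  have hb := h1 Lam (2 * φ) (-w) hL (by positivity) (by linarith) (by rw [norm_neg, hw])
  have hc := h2 Lam hL
  have hb' := Pool.Agent.H3.TN.cnc_sc_smul hb.1 (-1)
  have ia := Pool.Agent.H3.TN.cnc_sc_int ha.1
  have ib := Pool.Agent.H3.TN.cnc_sc_int hb'
  have ic := Pool.Agent.H3.TN.cnc_sc_int hc.1
  have e1 : MK (sE n Lam φ w) = fun x => MK (fun ξ : EE n => ((chis (‖ξ‖ / Lam) : ℝ) : ℂ)) x -
      (MK (sy n chis Lam (2 * φ) w) x - MK (fun ξ => (-1 : ℂ) * sy n chis Lam (2 * φ) (-w) ξ) x) := by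
    funext x
    have iab : Integrable (fun ξ : EE n => sy n chis Lam (2 * φ) w ξ -
        (-1 : ℂ) * sy n chis Lam (2 * φ) (-w) ξ) := ia.sub ib
    rw [tbl_sE]
    exact (tbl_MK_sub ic iab x).trans (congrArg _ (tbl_MK_sub ia ib x))
  have ka := Pool.Agent.H3.TN.cnc_ker ha.1
  have kb := Pool.Agent.H3.TN.cnc_ker hb'
  have kc := Pool.Agent.H3.TN.cnc_ker hc.1
  refine ⟨?_, ?_, fun z => ?_⟩
  · rw [e1]
    exact kc.1.sub (ka.1.sub kb.1)
  · rw [e1]
    exact kc.2.1.sub (ka.2.1.sub kb.2.1)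
  · rw [e1]
    simp only
    rw [Pool.Agent.H3.TN.cnc_MK_smul, neg_one_mul, sub_neg_eq_add]
    have hz := norm_nonneg z
    have b1 : ((1 + Lam * (2 * φ) * ‖z‖) ^ K)⁻¹ ≤ ((1 + Lam * φ * ‖z‖) ^ K)⁻¹ := by
      refine inv_anti₀ (by positivity) (pow_le_pow_left₀ (by positivity) ?_ _)
      have : 0 ≤ Lam * φ * ‖z‖ := by positivity
      nlinarith
    have b2 : ((1 + Lam * ‖z‖) ^ K)⁻¹ ≤ ((1 + Lam * φ * ‖z‖) ^ K)⁻¹ := by
      refine inv_anti₀ (by positivity) (pow_le_pow_left₀ (by positivity) ?_ _)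
      have : 0 ≤ Lam * ‖z‖ := by positivity
      nlinarith
    have c1 := (ha.2.2.2.2 z).trans (mul_le_mul_of_nonneg_left b1 (by positivity))
    have c2 := (hb.2.2.2.2 z).trans (mul_le_mul_of_nonneg_left b1 (by positivity))
    have c3 := (hc.2.2.1 z).trans (mul_le_mul_of_nonneg_left b2 (by positivity))
    refine (norm_sub_le _ _).trans ((add_le_add c3 ((norm_add_le _ _).trans
      (add_le_add c1 c2))).trans (le_of_eq ?_))
    ring

/-! ### the zonal kernel -/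

section

variable {n : ℕ}

theorem tbl_zk (hZB : T_ZB) (hZN : T_ZN) (hn : 1 ≤ n) {L : ℝ} (hL : 1 ≤ L) {u : EE n}
    (hu : u = 0 ∨ ‖u‖ = 1) : Integrable (fun w : Sp n => zk n L u (w : EE n)) (sg n) ∧
    ∫ w : Sp n, zk n L u (w : EE n) ∂(sg n) = 1 := by
  obtain ⟨C, hC⟩ := hZB n hn
  obtain ⟨hm, -, h0, -⟩ := hC L hL
  have h1 := hZN n L u hn hL hu
  have hmu : Measurable (fun w : Sp n => zk n L u (w : EE n)) := by
    have h2 : Measurable (fun w : Sp n => ((u, (w : EE n)) : EE n × EE n)) :=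
      measurable_const.prodMk measurable_subtype_coe
    have h3 := Measurable.comp hm h2
    exact h3
  have hnn : 0 ≤ᵐ[sg n] (fun w : Sp n => zk n L u (w : EE n)) := ae_of_all _ fun w => h0 u w
  have hi : Integrable (fun w : Sp n => zk n L u (w : EE n)) (sg n) := by
    refine ⟨hmu.aestronglyMeasurable, ?_⟩
    rw [hasFiniteIntegral_iff_ofReal hnn, h1]
    exact ENNReal.one_lt_top
  refine ⟨hi, ?_⟩
  rw [integral_eq_lintegral_of_nonneg_ae hnn hmu.aestronglyMeasurable, h1, ENNReal.toReal_one]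

theorem tbl_dir (y : EE n) : ‖y‖⁻¹ • y = 0 ∨ ‖‖y‖⁻¹ • y‖ = 1 := by
  by_cases h : y = 0
  · left
    rw [h, smul_zero]
  · right
    rw [norm_smul, norm_inv, norm_norm, inv_mul_cancel₀ (norm_ne_zero_iff.2 h)]

theorem tbl_PL_meas (hZB : T_ZB) (hn : 1 ≤ n) {L : ℝ} (hL : 1 ≤ L) {U : EE n → ℂ}
    (hU : Measurable U) : Measurable (PL n L U) := by
  obtain ⟨C, hC⟩ := hZB n hn
  obtain ⟨hm, -⟩ := hC L hL
  have h1 : Measurable (fun q : EE n × Sp n => ((zk n L (‖q.1‖⁻¹ • q.1) (q.2 : EE n) : ℝ) : ℂ) *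
      U (‖q.1‖ • (q.2 : EE n))) := by
    have h2 : Measurable (fun q : EE n × Sp n => ((‖q.1‖⁻¹ • q.1, (q.2 : EE n)) : EE n × EE n)) :=
      (measurable_fst.norm.inv.smul measurable_fst).prodMk
        (measurable_subtype_coe.comp measurable_snd)
    have h3 : Measurable (fun q : EE n × Sp n => ‖q.1‖ • (q.2 : EE n)) :=
      measurable_fst.norm.smul (measurable_subtype_coe.comp measurable_snd)
    exact (Complex.measurable_ofReal.comp (hm.comp h2)).mul (hU.comp h3)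
  exact (h1.stronglyMeasurable.integral_prod_right').measurable

theorem tbl_PL_bdd (hZB : T_ZB) (hZN : T_ZN) (hn : 1 ≤ n) {L M : ℝ} (hL : 1 ≤ L) {U : EE n → ℂ}
    (hM : ∀ y, ‖U y‖ ≤ M) (y : EE n) : ‖PL n L U y‖ ≤ M := by
  obtain ⟨hi, h1⟩ := tbl_zk hZB hZN hn hL (tbl_dir y)
  obtain ⟨C, hC⟩ := hZB n hn
  obtain ⟨-, -, h0, -⟩ := hC L hL
  unfold PL
  refine (norm_integral_le_of_norm_le (hi.mul_const M) (ae_of_all _ fun w => ?_)).trans
    (le_of_eq ?_)
  · rw [norm_mul, Complex.norm_real, Real.norm_of_nonneg (h0 _ _)]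
    exact mul_le_mul_of_nonneg_left (hM _) (h0 _ _)
  · rw [integral_mul_const, h1, one_mul]

/-- the representation and its consequence -/
theorem tbl_rep (hZB : T_ZB) (hZN : T_ZN) (hn : 1 ≤ n) {L M : ℝ} (hL : 1 ≤ L) {U : EE n → ℂ}
    (hU : Measurable U) (hM : ∀ y, ‖U y‖ ≤ M) {k : EE n → ℂ} (hk : Continuous k)
    (hki : Integrable k) {K : ℝ} (hkb : ∀ z, ‖k z‖ ≤ K) (x : EE n) (b : ℝ → ℝ≥0∞)
    (hb : Measurable b) (hB : ∀ (r : ℝ) (v' : Sp n), 0 < r →
      ‖∫ v : Sp n, k (x - r • (v : EE n)) * ((zk n L (v : EE n) (v' : EE n) : ℝ) : ℂ) ∂(sg n)‖ₑ ≤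
        b r) :
    ‖cn k (PL n L U) x‖ₑ ≤ ENNReal.ofReal M * ∫⁻ y : EE n, b ‖y‖ := by
  obtain ⟨C, hC⟩ := hZB n hn
  obtain ⟨hm, -, h0, hbd, -⟩ := hC L hL
  have hM0 : 0 ≤ M := (norm_nonneg _).trans (hM 0)
  have hP := tbl_PL_meas hZB hn hL hU
  have hPb := tbl_PL_bdd hZB hZN hn hL hM
  have hmp := mp_polar n hn
  have hv1 : ∀ v : Sp n, ‖(v : EE n)‖ = 1 := fun v => mem_sphere_zero_iff_norm.1 v.2
  have hkx : Measurable (fun y : EE n => k (x - y)) := by
    have h2 : Continuous (fun y : EE n => x - y) := by fun_prop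
    exact (hk.comp h2).measurable
  have hG : Measurable (fun y : EE n => k (x - y) * PL n L U y) := hkx.mul hP
  have hGi : Integrable (fun y : EE n => k (x - y) * PL n L U y) := by
    refine (((hki.comp_sub_left x).norm).mul_const M).mono' hG.aestronglyMeasurable
      (ae_of_all _ fun y => ?_)
    rw [norm_mul]
    exact mul_le_mul_of_nonneg_left (hPb y) (norm_nonneg _)
  have H1 : cn k (PL n L U) x = ∫ q : Sp n × Ioi (0 : ℝ),
      k (x - (q.2 : ℝ) • (q.1 : EE n)) * PL n L U ((q.2 : ℝ) • (q.1 : EE n))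
        ∂((sg n).prod (nu n)) := by
    unfold cn
    have h2 := integral_map (μ := (sg n).prod (nu n)) hmp.measurable.aemeasurable
      (f := fun y : EE n => k (x - y) * PL n L U y) (hmp.map_eq ▸ hG.aestronglyMeasurable)
    rw [hmp.map_eq] at h2
    exact h2
  have H2 : Integrable (fun q : Sp n × Ioi (0 : ℝ) =>
      k (x - (q.2 : ℝ) • (q.1 : EE n)) * PL n L U ((q.2 : ℝ) • (q.1 : EE n)))
        ((sg n).prod (nu n)) :=
    (hmp.integrable_comp hG.aestronglyMeasurable).2 hGi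
  rw [H1, integral_prod_symm _ H2]
  refine (enorm_integral_le_lintegral_enorm _).trans ?_
  have H3 : ∀ r : Ioi (0 : ℝ), ‖∫ v : Sp n, k (x - (r : ℝ) • (v : EE n)) *
      PL n L U ((r : ℝ) • (v : EE n)) ∂(sg n)‖ₑ ≤
      ∫⁻ _v' : Sp n, b (r : ℝ) * ENNReal.ofReal M ∂(sg n) := by
    intro r
    have hr : (0 : ℝ) < r := r.2
    have e1 : ∀ v : Sp n, k (x - (r : ℝ) • (v : EE n)) * PL n L U ((r : ℝ) • (v : EE n)) =
        ∫ v' : Sp n, k (x - (r : ℝ) • (v : EE n)) * (((zk n L (v : EE n) (v' : EE n) : ℝ) : ℂ) *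
          U ((r : ℝ) • (v' : EE n))) ∂(sg n) := by
      intro v
      rw [integral_const_mul]
      congr 1
      unfold PL
      have e2 : ‖(r : ℝ) • (v : EE n)‖ = r := by
        rw [norm_smul, hv1, mul_one, Real.norm_of_nonneg hr.le]
      rw [e2, smul_smul, inv_mul_cancel₀ hr.ne', one_smul]
    simp_rw [e1]
    have hmeas : Measurable (fun q : Sp n × Sp n => k (x - (r : ℝ) • (q.1 : EE n)) *
        (((zk n L (q.1 : EE n) (q.2 : EE n) : ℝ) : ℂ) * U ((r : ℝ) • (q.2 : EE n)))) := by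
      have m1 : Measurable (fun q : Sp n × Sp n => ((q.1 : EE n), (q.2 : EE n))) :=
        (measurable_subtype_coe.comp measurable_fst).prodMk
          (measurable_subtype_coe.comp measurable_snd)
      have m2 : Continuous (fun q : Sp n × Sp n => x - (r : ℝ) • (q.1 : EE n)) := by fun_prop
      have m3 : Continuous (fun q : Sp n × Sp n => (r : ℝ) • (q.2 : EE n)) := by fun_prop
      exact (hk.comp m2).measurable.mul ((Complex.measurable_ofReal.comp (hm.comp m1)).mul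
        (hU.comp m3.measurable))
    have hint : Integrable (Function.uncurry fun v v' : Sp n => k (x - (r : ℝ) • (v : EE n)) *
        (((zk n L (v : EE n) (v' : EE n) : ℝ) : ℂ) * U ((r : ℝ) • (v' : EE n))))
        ((sg n).prod (sg n)) := by
      refine Integrable.of_bound hmeas.aestronglyMeasurable (K * (C * L ^ (n - 1) * M))
        (ae_of_all _ fun q => ?_)
      simp only [Function.uncurry]
      rw [norm_mul, norm_mul, Complex.norm_real, Real.norm_of_nonneg (h0 _ _)]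
      have b1 := hbd (q.1 : EE n) (q.2 : EE n) (hv1 _) (hv1 _)
      have b0 := h0 (q.1 : EE n) (q.2 : EE n)
      have b2 := hkb (x - (r : ℝ) • (q.1 : EE n))
      have b3 := hM ((r : ℝ) • (q.2 : EE n))
      have b4 : 0 ≤ K := (norm_nonneg _).trans b2
      exact mul_le_mul b2 (mul_le_mul b1 b3 (norm_nonneg _) (b0.trans b1)) (by positivity) b4
    rw [integral_integral_swap hint]
    refine (enorm_integral_le_lintegral_enorm _).trans (lintegral_mono fun v' => ?_)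
    have e3 : (∫ v : Sp n, k (x - (r : ℝ) • (v : EE n)) *
        (((zk n L (v : EE n) (v' : EE n) : ℝ) : ℂ) * U ((r : ℝ) • (v' : EE n))) ∂(sg n)) =
        (∫ v : Sp n, k (x - (r : ℝ) • (v : EE n)) *
          ((zk n L (v : EE n) (v' : EE n) : ℝ) : ℂ) ∂(sg n)) * U ((r : ℝ) • (v' : EE n)) := by
      rw [← integral_mul_const]
      refine integral_congr_ae (ae_of_all _ fun v => ?_)
      simp only
      ring
    rw [e3, enorm_mul]
    refine mul_le_mul' (hB r v' hr) ?_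
    rw [← ofReal_norm]
    exact ENNReal.ofReal_le_ofReal (hM _)
  refine (lintegral_mono H3).trans (le_of_eq ?_)
  have hbq : Measurable (fun q : Sp n × Ioi (0 : ℝ) => b (q.2 : ℝ) * ENNReal.ofReal M) :=
    (hb.comp (measurable_subtype_coe.comp measurable_snd)).mul_const _
  have H4 : ∫⁻ r : Ioi (0 : ℝ), ∫⁻ _v' : Sp n, b (r : ℝ) * ENNReal.ofReal M ∂(sg n) ∂(nu n) =
      ∫⁻ q : Sp n × Ioi (0 : ℝ), b (q.2 : ℝ) * ENNReal.ofReal M ∂((sg n).prod (nu n)) :=
    (lintegral_prod_symm' _ hbq).symm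
  rw [H4]
  have hby : Measurable (fun y : EE n => b ‖y‖ * ENNReal.ofReal M) :=
    (hb.comp measurable_norm).mul_const _
  have H5 := hmp.lintegral_comp hby
  have e4 : ∀ q : Sp n × Ioi (0 : ℝ), ‖(q.2 : ℝ) • (q.1 : EE n)‖ = (q.2 : ℝ) := by
    intro q
    rw [norm_smul, hv1, mul_one, Real.norm_of_nonneg (le_of_lt q.2.2)]
  simp_rw [e4] at H5
  rw [H5, lintegral_mul_const (ENNReal.ofReal M) (f := fun y : EE n => b ‖y‖)
    (hb.comp measurable_norm), mul_comm]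

/-- the trivial bound for the kernel -/
theorem tbl_far (hZB : T_ZB) (hZN : T_ZN) (hn : 1 ≤ n) {L : ℝ} (hL : 1 ≤ L) {k : EE n → ℂ}
    {S : ℝ} (x : EE n) (r : ℝ) (v' : Sp n) (hS : ∀ v : Sp n, ‖k (x - r • (v : EE n))‖ ≤ S) :
    ‖∫ v : Sp n, k (x - r • (v : EE n)) * ((zk n L (v : EE n) (v' : EE n) : ℝ) : ℂ) ∂(sg n)‖ ≤
      S := by
  have hv1 : ∀ v : Sp n, ‖(v : EE n)‖ = 1 := fun v => mem_sphere_zero_iff_norm.1 v.2
  obtain ⟨hi, h1⟩ := tbl_zk hZB hZN hn hL (u := (v' : EE n)) (Or.inr (hv1 v'))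
  obtain ⟨C, hC⟩ := hZB n hn
  obtain ⟨-, -, h0, -, hsym, -⟩ := hC L hL
  refine (norm_integral_le_of_norm_le (hi.const_mul S) (ae_of_all _ fun v => ?_)).trans
    (le_of_eq ?_)
  · rw [norm_mul, Complex.norm_real, Real.norm_of_nonneg (h0 _ _), hsym _ _ (hv1 v) (hv1 v')]
    exact mul_le_mul_of_nonneg_right (hS v) (h0 _ _)
  · rw [integral_const_mul, h1, mul_one]

/-- the integral of the majorant -/
theorem tbl_int (n K : ℕ) (hK : n + 1 ≤ K) : ∃ I c : ℝ, 0 ≤ I ∧ 0 ≤ c ∧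
    ∀ (A₁ A₂ R : ℝ), 0 ≤ A₁ → 0 ≤ A₂ → 0 ≤ R →
    ∫⁻ y : EE n, (ENNReal.ofReal (A₁ * ((1 + ‖y‖) ^ K)⁻¹) +
      (Iic R).indicator (fun _ => ENNReal.ofReal A₂) ‖y‖) ≤
      ENNReal.ofReal (A₁ * I + A₂ * (R ^ n * c)) := by
  have hw := Pool.Agent.H48.TN.wt_int (n := n)
  have hI0 : 0 ≤ ∫ y : EE n, ((1 + ‖y‖) ^ (n + 1))⁻¹ := integral_nonneg fun y => by positivity
  refine ⟨∫ y : EE n, ((1 + ‖y‖) ^ (n + 1))⁻¹,
    ((volume : Measure (EE n)) (Metric.ball 0 1)).toReal, hI0, ENNReal.toReal_nonneg,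
    fun A₁ A₂ R h1 h2 hR => ?_⟩
  have hfin : (volume : Measure (EE n)) (Metric.ball 0 1) ≠ ⊤ := measure_ball_lt_top.ne
  have hm : Measurable (fun y : EE n => ENNReal.ofReal (A₁ * ((1 + ‖y‖) ^ K)⁻¹)) := by
    fun_prop
  rw [lintegral_add_left hm]
  have e1 : ∫⁻ y : EE n, ENNReal.ofReal (A₁ * ((1 + ‖y‖) ^ K)⁻¹) ≤
      ENNReal.ofReal (A₁ * ∫ y : EE n, ((1 + ‖y‖) ^ (n + 1))⁻¹) := by
    rw [← integral_const_mul, ofReal_integral_eq_lintegral_ofReal (hw.const_mul A₁)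
      (ae_of_all _ fun y => by positivity)]
    refine lintegral_mono fun y => ENNReal.ofReal_le_ofReal (mul_le_mul_of_nonneg_left ?_ h1)
    refine inv_anti₀ (by positivity) (pow_le_pow_right₀ ?_ hK)
    linarith [norm_nonneg y]
  have e2 : ∫⁻ y : EE n, (Iic R).indicator (fun _ => ENNReal.ofReal A₂) ‖y‖ =
      ENNReal.ofReal (A₂ * (R ^ n * ((volume : Measure (EE n)) (Metric.ball 0 1)).toReal)) := by
    have e3 : (fun y : EE n => (Iic R).indicator (fun _ => ENNReal.ofReal A₂) ‖y‖) =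
        (Metric.closedBall (0 : EE n) R).indicator (fun _ => ENNReal.ofReal A₂) := by
      funext y
      simp only [Set.indicator, mem_Iic, mem_closedBall_zero_iff]
    rw [e3, lintegral_indicator_const measurableSet_closedBall, Measure.addHaar_closedBall _ _ hR,
      finrank_euclideanSpace_fin, ENNReal.ofReal_mul h2, ENNReal.ofReal_mul (by positivity),
      ENNReal.ofReal_toReal hfin]
  rw [e2, ENNReal.ofReal_add (by positivity) (by positivity)]
  exact add_le_add_left e1 _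

end

/-! ### the numbers -/

theorem tbl_real {N K n : ℕ} {ε lam Lam L ρ φ X : ℝ} (hlam : 1 ≤ lam)
    (hL2 : Lam ≤ 4 * lam) (hLam : 0 < Lam) (hL : 1 ≤ L) (hρ : 0 < ρ) (hρ4 : ρ ≤ 4)
    (hφ16 : φ ≤ 1 / 16) (h1 : lam ^ ε * (L / (ρ * Lam)) ≤ φ)
    (h2 : lam ^ ε / Real.sqrt (ρ * Lam) ≤ φ) (hε : 0 < ε) (hX : 1 ≤ X) (hK : ((N : ℝ) + 2 * n) ≤ ε * K) :
    (1 ≤ lam ^ ε ∧ 0 < φ ∧ 256 ≤ ρ * Lam ∧ lam ^ ε / 2 ≤ Lam * φ * (ρ * X) / 2 ∧
      1 / 4 ≤ Lam * φ ∧ L ≤ lam ∧ lam ^ (N + 2 * n) ≤ (lam ^ ε) ^ K) ∧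
    lam ^ ε * Real.sqrt X ≤ min (Lam * (ρ * X) * φ ^ 2) (min (Lam * (ρ * X) * φ / L)
      (Real.sqrt (Lam * (ρ * X)) * φ)) := by
  have hP : 1 ≤ lam ^ ε := Real.one_le_rpow hlam hε.le
  have hρL : 0 < ρ * Lam := by positivity
  have hs : 0 < Real.sqrt (ρ * Lam) := Real.sqrt_pos.2 hρL
  have hφ : 0 < φ := lt_of_lt_of_le (by positivity) h2
  rw [div_le_iff₀ hs] at h2
  rw [mul_div_assoc', div_le_iff₀ hρL] at h1
  have hsq : Real.sqrt (ρ * Lam) ^ 2 = ρ * Lam := Real.sq_sqrt hρL.le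
  have h16 : 16 ≤ Real.sqrt (ρ * Lam) := by nlinarith
  have h256 : 256 ≤ ρ * Lam := by nlinarith
  have hPL : lam ^ ε ≤ lam ^ ε * L := le_mul_of_one_le_right (by positivity) hL
  have hX0 : 0 < X := by linarith
  have hLphi : lam ^ ε ≤ Lam * φ * ρ := by nlinarith
  refine ⟨⟨hP, hφ, h256, ?_, ?_, ?_, ?_⟩, ?_⟩
  · have : Lam * φ * ρ ≤ Lam * φ * (ρ * X) := by
      have h3 : 0 ≤ Lam * φ * ρ := by positivity
      nlinarith
    linarith
  · have : Lam * φ * ρ ≤ Lam * φ * 4 := mul_le_mul_of_nonneg_left hρ4 (by positivity)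
    linarith
  · have h3 : L ≤ lam ^ ε * L := le_mul_of_one_le_left (by linarith) hP
    have h4 : φ * (ρ * Lam) ≤ 1 / 16 * (4 * (4 * lam)) := by
      refine mul_le_mul hφ16 (mul_le_mul hρ4 hL2 hLam.le (by norm_num)) hρL.le (by norm_num)
    linarith
  · rw [← Real.rpow_natCast, ← Real.rpow_natCast, ← Real.rpow_mul (by linarith)]
    refine Real.rpow_le_rpow_of_exponent_le hlam ?_
    push_cast
    exact hK
  · have hsX : Real.sqrt X ≤ X := by
      rw [Real.sqrt_le_left (by linarith)]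
      nlinarith
    have hsX0 : 0 < Real.sqrt X := Real.sqrt_pos.2 hX0
    refine le_min ?_ (le_min ?_ ?_)
    · have h3 : (lam ^ ε) ^ 2 ≤ φ ^ 2 * (ρ * Lam) := by
        rw [← hsq, ← mul_pow]
        exact pow_le_pow_left₀ (by positivity) h2 2
      have h4 : lam ^ ε ≤ (lam ^ ε) ^ 2 := by nlinarith
      calc lam ^ ε * Real.sqrt X ≤ (φ ^ 2 * (ρ * Lam)) * X :=
            mul_le_mul (h4.trans h3) hsX hsX0.le (by positivity)
        _ = Lam * (ρ * X) * φ ^ 2 := by ring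
    · rw [le_div_iff₀ (by linarith)]
      calc lam ^ ε * Real.sqrt X * L = (lam ^ ε * L) * Real.sqrt X := by ring
        _ ≤ (φ * (ρ * Lam)) * X := mul_le_mul h1 hsX hsX0.le (by positivity)
        _ = Lam * (ρ * X) * φ := by ring
    · have h3 : Real.sqrt (Lam * (ρ * X)) = Real.sqrt (ρ * Lam) * Real.sqrt X := by
        rw [← Real.sqrt_mul hρL.le]
        congr 1
        ring
      rw [h3]
      calc lam ^ ε * Real.sqrt X ≤ (φ * Real.sqrt (ρ * Lam)) * Real.sqrt X :=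
            mul_le_mul_of_nonneg_right h2 hsX0.le
        _ = Real.sqrt (ρ * Lam) * Real.sqrt X * φ := by ring

theorem pf_tbl (hBKN : T_BKN) (hSEL : T_SEL) (hRAD : T_RAD) (hZB : T_ZB) (hZN : T_ZN) :
    T_TBL := by
  intro n ε N hn hε
  have hn1 : 1 ≤ n := by omega
  obtain ⟨K, hK⟩ : ∃ K : ℕ, n + 1 ≤ K ∧ ((N : ℝ) + 2 * n) ≤ ε * K := by
    refine ⟨max (n + 1) ⌈((N : ℝ) + 2 * n) / ε⌉₊, le_max_left _ _, ?_⟩
    have h1 : ((N : ℝ) + 2 * n) / ε ≤ ((max (n + 1) ⌈((N : ℝ) + 2 * n) / ε⌉₊ : ℕ) : ℝ) :=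
      (Nat.le_ceil _).trans (by exact_mod_cast le_max_right _ _)
    rw [div_le_iff₀ hε] at h1
    linarith
  obtain ⟨C₁, hC₁, hker⟩ := tbl_ker hSEL hRAD n (2 * K) hn1
  obtain ⟨C₂, hC₂, hbk⟩ := hBKN n (2 * K) hn
  obtain ⟨I, c, hI, hc, hint⟩ := tbl_int n K hK.1
  refine ⟨C₁ * 24 ^ K * 4 ^ n * I + C₂ * 32 ^ n * c, by positivity, ?_⟩
  intro lam Lam L ρ φ M w U x hlam hLl hL2 hL hρ hρ4 hφ16 h1 h2 hw hU hM hx hxw
  have hlam0 : 0 < lam := by linarith
  have hLam : 0 < Lam := lt_of_lt_of_le (Real.sqrt_pos.2 hlam0) hLl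
  have hx0 : 0 < ‖x‖ := by linarith
  have hM0 : 0 ≤ M := (norm_nonneg _).trans (hM 0)
  obtain ⟨X, hXe⟩ : ∃ X : ℝ, X = ‖x‖ / ρ := ⟨_, rfl⟩
  have hxX : ‖x‖ = ρ * X := by
    rw [hXe]
    field_simp
  have hX : 1 ≤ X := by
    rw [hXe, le_div_iff₀ hρ]
    linarith
  obtain ⟨⟨hP, hφ, h256, g1, g2, g3, g4⟩, hmin⟩ :=
    tbl_real hlam hL2 hLam hL hρ hρ4 hφ16 h1 h2 hε hX hK.2
  obtain ⟨P, hPe⟩ : ∃ P : ℝ, P = lam ^ ε := ⟨_, rfl⟩
  rw [← hPe] at hP g1 g4 hmin
  have hP0 : 0 < P := by linarith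
  have hX0 : 0 < X := by linarith
  obtain ⟨hki, hkc, hkb⟩ := hker Lam φ w hLam hφ hφ16 hw
  have hkbd : ∀ z, ‖MK (sE n Lam φ w) z‖ ≤ C₁ * Lam ^ n := by
    intro z
    refine (hkb z).trans (mul_le_of_le_one_right (by positivity) (inv_le_one_of_one_le₀ ?_))
    refine one_le_pow₀ ?_
    have : 0 ≤ Lam * φ * ‖z‖ := by positivity
    linarith
  -- the two constants
  obtain ⟨A₁, hA₁⟩ : ∃ A : ℝ, A = C₁ * Lam ^ n * 24 ^ K * (P ^ K)⁻¹ := ⟨_, rfl⟩
  obtain ⟨A₂, hA₂⟩ : ∃ A : ℝ, A = C₂ * Lam ^ n * L ^ (n - 1) * (P ^ K * X ^ n)⁻¹ := ⟨_, rfl⟩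
  have hA₁0 : 0 ≤ A₁ := by rw [hA₁]; positivity
  have hA₂0 : 0 ≤ A₂ := by rw [hA₂]; positivity
  have hb : Measurable (fun r : ℝ => ENNReal.ofReal (A₁ * ((1 + r) ^ K)⁻¹) +
      (Iic (2 * ‖x‖)).indicator (fun _ => ENNReal.ofReal A₂) r) := by
    have hm1 : Measurable (fun r : ℝ => ENNReal.ofReal (A₁ * ((1 + r) ^ K)⁻¹)) := by fun_prop
    exact hm1.add (measurable_const.indicator measurableSet_Iic)
  have hrep := tbl_rep hZB hZN hn1 hL hU hM hkc hki hkbd x _ hb ?_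
  · have hfin := hrep.trans (mul_le_mul_right (hint A₁ A₂ (2 * ‖x‖) hA₁0 hA₂0 (by positivity)) _)
    rw [← ENNReal.ofReal_mul hM0, ← ofReal_norm, ENNReal.ofReal_le_ofReal_iff (by positivity)]
      at hfin
    refine hfin.trans ?_
    have hP2 : (P ^ K)⁻¹ ≤ (lam ^ (N + 2 * n))⁻¹ := inv_anti₀ (by positivity) g4
    have hLn : Lam ^ n ≤ 4 ^ n * lam ^ n := by
      rw [← mul_pow]
      exact pow_le_pow_left₀ hLam.le hL2 n
    have hl1 : 1 ≤ lam ^ n := one_le_pow₀ hlam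
    have hLL : L ^ (n - 1) ≤ lam ^ n :=
      (pow_le_pow_left₀ (by linarith) g3 _).trans (pow_le_pow_right₀ hlam (by omega))
    have hsplit : lam ^ n * lam ^ n * (lam ^ (N + 2 * n))⁻¹ = (lam ^ N)⁻¹ := by
      rw [pow_add, two_mul, pow_add]
      field_simp
    have t1 : A₁ * I ≤ C₁ * 24 ^ K * 4 ^ n * I * (lam ^ N)⁻¹ := by
      have s1 : Lam ^ n * (P ^ K)⁻¹ ≤ 4 ^ n * (lam ^ N)⁻¹ := by
        calc Lam ^ n * (P ^ K)⁻¹ ≤ (4 ^ n * lam ^ n) * (lam ^ (N + 2 * n))⁻¹ :=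
              mul_le_mul hLn hP2 (by positivity) (by positivity)
          _ ≤ (4 ^ n * (lam ^ n * lam ^ n)) * (lam ^ (N + 2 * n))⁻¹ := by
              refine mul_le_mul_of_nonneg_right (mul_le_mul_of_nonneg_left ?_ (by positivity))
                (by positivity)
              exact le_mul_of_one_le_left (by positivity) hl1
          _ = 4 ^ n * (lam ^ N)⁻¹ := by rw [mul_assoc, hsplit]
      calc A₁ * I = C₁ * 24 ^ K * I * (Lam ^ n * (P ^ K)⁻¹) := by rw [hA₁]; ring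
        _ ≤ C₁ * 24 ^ K * I * (4 ^ n * (lam ^ N)⁻¹) :=
            mul_le_mul_of_nonneg_left s1 (by positivity)
        _ = _ := by ring
    have t2 : A₂ * ((2 * ‖x‖) ^ n * c) ≤ C₂ * 32 ^ n * c * (lam ^ N)⁻¹ := by
      have s1 : (2 * ‖x‖) ^ n ≤ 8 ^ n * X ^ n := by
        rw [← mul_pow, hxX]
        refine pow_le_pow_left₀ (by positivity) ?_ n
        nlinarith
      have s2 : A₂ * ((2 * ‖x‖) ^ n * c) ≤
          (C₂ * (4 ^ n * lam ^ n) * lam ^ n * (P ^ K * X ^ n)⁻¹) * (8 ^ n * X ^ n * c) := by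
        rw [hA₂]
        gcongr
      have s3 : (C₂ * (4 ^ n * lam ^ n) * lam ^ n * (P ^ K * X ^ n)⁻¹) * (8 ^ n * X ^ n * c) =
          C₂ * 32 ^ n * c * (lam ^ n * lam ^ n * (P ^ K)⁻¹) := by
        have e32 : (32 : ℝ) ^ n = 4 ^ n * 8 ^ n := by rw [← mul_pow]; norm_num
        rw [e32]
        field_simp
      rw [s3] at s2
      refine s2.trans (mul_le_mul_of_nonneg_left ?_ (by positivity))
      rw [← hsplit]
      exact mul_le_mul_of_nonneg_left hP2 (by positivity)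
    calc M * (A₁ * I + A₂ * ((2 * ‖x‖) ^ n * c)) ≤
        M * (C₁ * 24 ^ K * 4 ^ n * I * (lam ^ N)⁻¹ + C₂ * 32 ^ n * c * (lam ^ N)⁻¹) :=
          mul_le_mul_of_nonneg_left (add_le_add t1 t2) hM0
      _ = (C₁ * 24 ^ K * 4 ^ n * I + C₂ * 32 ^ n * c) * (lam ^ N)⁻¹ * M := by ring
  · intro r v' hr
    have hv1 : ∀ v : Sp n, ‖(v : EE n)‖ = 1 := fun v => mem_sphere_zero_iff_norm.1 v.2
    have hv1' := hv1 v'
    by_cases hcase : ‖x‖ / 2 ≤ |‖x‖ - r|
    · -- far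
      have hfar : ∀ v : Sp n, ‖MK (sE n Lam φ w) (x - r • (v : EE n))‖ ≤
          A₁ * ((1 + r) ^ K)⁻¹ := by
        intro v
        refine (hkb _).trans ?_
        have hD : |‖x‖ - r| ≤ ‖x - r • (v : EE n)‖ := by
          have h3 := abs_norm_sub_norm_le x (r • (v : EE n))
          rw [norm_smul, hv1, mul_one, Real.norm_of_nonneg hr.le] at h3
          exact h3
        obtain ⟨D, hDe⟩ : ∃ D : ℝ, D = |‖x‖ - r| := ⟨_, rfl⟩
        rw [← hDe] at hD hcase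
        have hrD : r ≤ 3 * D := by
          have h3 : r - ‖x‖ ≤ D := by
            rw [hDe, abs_sub_comm]
            exact le_abs_self _
          linarith
        have hD0 : 0 ≤ D := by rw [hDe]; exact abs_nonneg _
        have e1 : P / 2 ≤ 1 + Lam * φ * ‖x - r • (v : EE n)‖ := by
          have h3 : Lam * φ * (ρ * X) / 2 ≤ Lam * φ * ‖x - r • (v : EE n)‖ := by
            rw [← hxX, mul_div_assoc]
            exact mul_le_mul_of_nonneg_left (hcase.trans hD) (by positivity)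
          linarith
        have e2 : (1 + r) / 12 ≤ 1 + Lam * φ * ‖x - r • (v : EE n)‖ := by
          have h3 : 1 / 4 * (r / 3) ≤ Lam * φ * ‖x - r • (v : EE n)‖ :=
            mul_le_mul g2 (by linarith) (by positivity) (by positivity)
          linarith
        have e3 : (P * (1 + r) / 24) ^ K ≤ (1 + Lam * φ * ‖x - r • (v : EE n)‖) ^ (2 * K) := by
          rw [pow_mul]
          refine pow_le_pow_left₀ (by positivity) ?_ K
          calc P * (1 + r) / 24 = (P / 2) * ((1 + r) / 12) := by ring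
            _ ≤ (1 + Lam * φ * ‖x - r • (v : EE n)‖) *
                (1 + Lam * φ * ‖x - r • (v : EE n)‖) :=
                mul_le_mul e1 e2 (by positivity) (by positivity)
            _ = _ := by ring
        calc C₁ * Lam ^ n * ((1 + Lam * φ * ‖x - r • (v : EE n)‖) ^ (2 * K))⁻¹ ≤
            C₁ * Lam ^ n * ((P * (1 + r) / 24) ^ K)⁻¹ :=
              mul_le_mul_of_nonneg_left (inv_anti₀ (by positivity) e3) (by positivity)
          _ = A₁ * ((1 + r) ^ K)⁻¹ := by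
              rw [hA₁, div_pow, mul_pow, inv_div, div_eq_mul_inv, mul_inv]
              ring
      have h5 := tbl_far hZB hZN hn1 hL (k := MK (sE n Lam φ w)) x r v' hfar
      refine le_trans ?_ le_self_add
      rw [← ofReal_norm]
      exact ENNReal.ofReal_le_ofReal h5
    · -- near
      push Not at hcase
      have hr2 : r ≤ 2 * ‖x‖ := by
        have h3 : r - ‖x‖ ≤ |‖x‖ - r| := by
          rw [abs_sub_comm]
          exact le_abs_self _
        linarith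
      have hne : r • (v' : EE n) ≠ 0 := by
        intro h0
        have h3 := congrArg norm h0
        rw [norm_smul, hv1', mul_one, Real.norm_of_nonneg hr.le, norm_zero] at h3
        linarith
      have h4 : 4 ≤ Lam * ‖x‖ := by
        have h3 : ρ * Lam ≤ Lam * ‖x‖ := by
          rw [mul_comm]
          exact mul_le_mul_of_nonneg_left hx hLam.le
        linarith
      have h5 := hbk Lam L φ w x (r • (v' : EE n)) hLam hL hφ hφ16 hw h4 hne hxw
      have e5 : ‖r • (v' : EE n)‖ = r := by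
        rw [norm_smul, hv1', mul_one, Real.norm_of_nonneg hr.le]
      rw [e5, smul_smul, inv_mul_cancel₀ hr.ne', one_smul] at h5
      have h6 : C₂ * Lam ^ n * L ^ (n - 1) *
          ((1 + min (Lam * ‖x‖ * φ ^ 2) (min (Lam * ‖x‖ * φ / L)
            (Real.sqrt (Lam * ‖x‖) * φ))) ^ (2 * K))⁻¹ ≤ A₂ := by
        rw [hA₂]
        refine mul_le_mul_of_nonneg_left (inv_anti₀ (by positivity) ?_) (by positivity)
        rw [hxX]
        have h7 : (P * Real.sqrt X) ^ (2 * K) ≤ (1 + min (Lam * (ρ * X) * φ ^ 2)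
            (min (Lam * (ρ * X) * φ / L) (Real.sqrt (Lam * (ρ * X)) * φ))) ^ (2 * K) := by
          refine pow_le_pow_left₀ (by positivity) ?_ _
          linarith
        refine le_trans ?_ h7
        rw [pow_mul, mul_pow, Real.sq_sqrt hX0.le, mul_pow]
        refine mul_le_mul ?_ (pow_le_pow_right₀ hX (by omega)) (by positivity) (by positivity)
        refine pow_le_pow_left₀ hP0.le ?_ K
        nlinarith
      refine le_trans ?_ (le_add_self : _ ≤ ENNReal.ofReal (A₁ * ((1 + r) ^ K)⁻¹) + _)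
      rw [Set.indicator_of_mem (show r ∈ Iic (2 * ‖x‖) from hr2), ← ofReal_norm]
      exact ENNReal.ofReal_le_ofReal (h5.trans h6)

end Pool.Agent.H99.TN
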